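import Pool.Agent.Helper27.EB.Indep
import Pool.Agent.Helper27.EB.Bern

/-!
# ZE: independence of many disjoint windows
-/

set_option autoImplicit false

namespace ZE

open EB MeasureTheory

theorem bern_indep_k {d : ℕ} {S : Type} (W : Finset (Gd d)) (F : Om d → S)
    (hF : ∀ x y : Om d, (∀ w ∈ W, x w = y w) → F x = F y)
    (hm : ∀ s, MeasurableSet {x | F x = s}) (u : Gd d → S) (Λ : Finset (Gd d)) :
    (∀ v ∈ Λ, ∀ v' ∈ Λ, v ≠ v' → ∀ w ∈ W, ∀ w' ∈ W, w + v ≠ w' + v') →
    bern d {x | ∀ v ∈ Λ, F (sh v x) = u v} = ∏ v ∈ Λ, bern d {x | F x = u v} := by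
  classical
  induction Λ using Finset.induction_on with
  | empty =>
    intro _
    simp
  | insert v0 Λ hv0 ih =>
    intro hΛ
    have ih' := ih fun v hv v' hv' => hΛ v (Finset.mem_insert_of_mem hv) v'
      (Finset.mem_insert_of_mem hv')
    have h1 := bern_indep d (Λ.biUnion fun v => W.image fun w => w + v) (W.image fun w => w + v0)
      (by
        rw [Finset.disjoint_left]
        intro z hz hz'
        obtain ⟨v, hv, hz⟩ := Finset.mem_biUnion.1 hz
        obtain ⟨w, hw, rfl⟩ := Finset.mem_image.1 hz
        obtain ⟨w', hw', h⟩ := Finset.mem_image.1 hz'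
        refine hΛ v0 (Finset.mem_insert_self v0 Λ) v (Finset.mem_insert_of_mem hv) ?_ w' hw' w hw h
        rintro rfl
        exact hv0 hv)
      (fun x => ∀ v ∈ Λ, F (sh v x) = u v) (fun x => F (sh v0 x)) ?_ ?_ True (u v0)
    · have e1 : {x : Om d | ∀ v ∈ insert v0 Λ, F (sh v x) = u v} =
          {x | (∀ v ∈ Λ, F (sh v x) = u v) = True ∧ F (sh v0 x) = u v0} := by
        ext x
        simp only [Finset.mem_insert, forall_eq_or_imp, Set.mem_ofPred_eq, eq_iff_iff, iff_true]
        exact and_comm
      have e2 : {x : Om d | (∀ v ∈ Λ, F (sh v x) = u v) = True} =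
          {x | ∀ v ∈ Λ, F (sh v x) = u v} := by
        ext x
        simp only [Set.mem_ofPred_eq, eq_iff_iff, iff_true]
      rw [e1, h1, e2, ih', Finset.prod_insert hv0, mul_comm]
      congr 1
      exact (bern_inv d v0).measure_preimage (hm (u v0)).nullMeasurableSet
    · intro x y hxy
      have : ∀ v ∈ Λ, F (sh v x) = F (sh v y) := by
        intro v hv
        refine hF _ _ fun w hw => hxy (w + v) ?_
        exact Finset.mem_biUnion.2 ⟨v, hv, Finset.mem_image_of_mem _ hw⟩
      apply propext
      constructor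
      · intro h v hv
        rw [← this v hv]
        exact h v hv
      · intro h v hv
        rw [this v hv]
        exact h v hv
    · intro x y hxy
      exact hF _ _ fun w hw => hxy (w + v0) (Finset.mem_image_of_mem _ hw)

end ZE
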