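import Pool.Agent.Helper68.ZE.Ham
import Pool.Agent.Helper68.ZE.IndepK
import Pool.Agent.Helper27.EB.Cyl
import Pool.Agent.Helper68.CC.Phi

/-!
# ZE: exponentially many patterns, Bernoulli case

If `F` has two different values with positive probability then there are `κ > 1` and `M` such that, for
every finite set `Λ` of points with all differences outside of the box with radius `M`, and every set `A`
of patterns on `Λ` which contains the pattern of `F` almost surely, `κ ^ |Λ| ≤ 4 |A| ^ 2`.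
-/

set_option autoImplicit false

namespace ZE

open EB MeasureTheory

/-- parameters -/
theorem params (δ q : ℝ) (hδ : 0 < δ) (hδ1 : δ ≤ 1) (hq : 0 ≤ q) :
    ∃ (θ : ℝ) (m : ℕ), 0 < θ ∧ θ ≤ 1 ∧ 0 < m ∧ (1 + q * θ) * (1 - δ / 2) ≤ 1 - δ / 4 ∧
      (1 - δ / 4) ^ m ≤ θ := by
  have hθ : 0 < δ / (4 * (q + 1)) := by positivity
  obtain ⟨m, hm⟩ := exists_pow_lt_of_lt_one hθ (show 1 - δ / 4 < 1 by linarith)
  refine ⟨δ / (4 * (q + 1)), m + 1, hθ, ?_, Nat.succ_pos _, ?_, ?_⟩
  · rw [div_le_one (by positivity)]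
    nlinarith
  · have h1 : q * (δ / (4 * (q + 1))) ≤ δ / 4 := by
      rw [mul_div_assoc', div_le_div_iff₀ (by positivity) (by norm_num)]
      nlinarith
    nlinarith [mul_nonneg (mul_nonneg hq hθ.le) hδ.le]
  · rw [pow_succ]
    have h2 : 0 ≤ 1 - δ / 4 := by linarith
    have h3 : 1 - δ / 4 ≤ 1 := by linarith
    exact (mul_le_of_le_one_right (pow_nonneg h2 m) h3).trans hm.le

/-- few errors with probability at least `1/2` -/
theorem few_errors {d : ℕ} {S : Type} [DecidableEq S] (F F' : Om d → S)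
    (hne : MeasurableSet {x | F x ≠ F' x}) (m : ℕ) (hm : 0 < m)
    (happ : bern d {x | F x ≠ F' x} ≤ ENNReal.ofReal (1 / (4 * m))) (Λ : Finset (Gd d)) (t : ℕ)
    (ht : Λ.card < 2 * m * (t + 1)) :
    bern d {x | t + 1 ≤ (Λ.filter fun v => F (sh v x) ≠ F' (sh v x)).card} ≤ ENNReal.ofReal (1 / 2) := by
  have hmeas : ∀ v, MeasurableSet {x | F (sh v x) ≠ F' (sh v x)} := fun v => sh_meas v hne
  have h1 : ∀ x, (((Λ.filter fun v => F (sh v x) ≠ F' (sh v x)).card : ℕ) : ENNReal) =
      ∑ v ∈ Λ, Set.indicator {x | F (sh v x) ≠ F' (sh v x)} (fun _ => (1 : ENNReal)) x := by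
    intro x
    rw [Finset.card_filter]
    push_cast
    refine Finset.sum_congr rfl fun v _ => ?_
    by_cases h : F (sh v x) ≠ F' (sh v x)
    · rw [if_pos h, Set.indicator_of_mem (show x ∈ {x | F (sh v x) ≠ F' (sh v x)} from h)]
    · rw [if_neg h, Set.indicator_of_notMem (show x ∉ {x | F (sh v x) ≠ F' (sh v x)} from h)]
  have h2 : ∫⁻ x, (((Λ.filter fun v => F (sh v x) ≠ F' (sh v x)).card : ℕ) : ENNReal) ∂(bern d) ≤
      Λ.card * ENNReal.ofReal (1 / (4 * m)) := by
    simp_rw [h1]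
    rw [lintegral_finsetSum _ fun v _ => measurable_const.indicator (hmeas v)]
    refine (Finset.sum_le_card_nsmul _ _ (ENNReal.ofReal (1 / (4 * m))) fun v _ => ?_).trans
      (le_of_eq (nsmul_eq_mul _ _))
    rw [lintegral_indicator (hmeas v), lintegral_const, one_mul, Measure.restrict_apply_univ]
    have h3 : bern d {x | F (sh v x) ≠ F' (sh v x)} = bern d {x | F x ≠ F' x} :=
      (bern_inv d v).measure_preimage hne.nullMeasurableSet
    rw [h3]
    exact happ
  have h4 : ((t + 1 : ℕ) : ENNReal) *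
      bern d {x | t + 1 ≤ (Λ.filter fun v => F (sh v x) ≠ F' (sh v x)).card} ≤
      Λ.card * ENNReal.ofReal (1 / (4 * m)) := by
    refine le_trans ?_ h2
    have h5 := mul_meas_ge_le_lintegral₀ (μ := bern d)
      (f := fun x => (((Λ.filter fun v => F (sh v x) ≠ F' (sh v x)).card : ℕ) : ENNReal)) ?_
      ((t + 1 : ℕ) : ENNReal)
    · refine le_trans (le_of_eq ?_) h5
      congr 2
      ext x
      simp only [Set.mem_ofPred_eq, Nat.cast_le]
    · have h6 : (fun x => (((Λ.filter fun v => F (sh v x) ≠ F' (sh v x)).card : ℕ) : ENNReal)) =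
          fun x => ∑ v ∈ Λ, Set.indicator {x | F (sh v x) ≠ F' (sh v x)}
            (fun _ => (1 : ENNReal)) x := funext h1
      rw [h6]
      exact (Finset.measurable_sum _ fun v _ =>
        measurable_const.indicator (hmeas v)).aemeasurable
  -- in real numbers
  have h7 : bern d {x | t + 1 ≤ (Λ.filter fun v => F (sh v x) ≠ F' (sh v x)).card} =
      ENNReal.ofReal ((bern d).real
        {x | t + 1 ≤ (Λ.filter fun v => F (sh v x) ≠ F' (sh v x)).card}) :=
    (ENNReal.ofReal_toReal (measure_ne_top _ _)).symm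
  rw [h7] at h4 ⊢
  have h8 : ((t + 1 : ℕ) : ENNReal) = ENNReal.ofReal ((t + 1 : ℕ) : ℝ) :=
    (ENNReal.ofReal_natCast _).symm
  have h9 : ((Λ.card : ℕ) : ENNReal) = ENNReal.ofReal ((Λ.card : ℕ) : ℝ) :=
    (ENNReal.ofReal_natCast _).symm
  rw [h8, h9, ← ENNReal.ofReal_mul (by positivity), ← ENNReal.ofReal_mul (by positivity),
    ENNReal.ofReal_le_ofReal_iff (by positivity)] at h4
  refine ENNReal.ofReal_le_ofReal ?_
  generalize (bern d).real
        {x | t + 1 ≤ (Λ.filter fun v => F (sh v x) ≠ F' (sh v x)).card} = P at h4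
  have h10 : (Λ.card : ℝ) < 2 * m * (t + 1) := by exact_mod_cast ht
  have hm' : (0 : ℝ) < m := by exact_mod_cast hm
  have h11 : (Λ.card : ℝ) * (1 / (4 * m)) ≤ (t + 1) / 2 := by
    rw [mul_one_div, div_le_div_iff₀ (by positivity) (by norm_num)]
    nlinarith
  push_cast at h4
  have ht0 : (0 : ℝ) < (t : ℝ) + 1 := by positivity
  by_contra hcon
  push Not at hcon
  nlinarith

theorem count_bern {d : ℕ} {S : Type} [Finite S] (F : Om d → S) (hF : Ms F) (a b : S)
    (hab : a ≠ b) (ha : ∃ᶠ x in ae (bern d), F x = a) (hb : ∃ᶠ x in ae (bern d), F x = b) :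
    ∃ (κ : ℝ) (M : ℕ), 1 < κ ∧ ∀ Λ : Finset (Gd d),
      (∀ v ∈ Λ, ∀ v' ∈ Λ, v ≠ v' → ¬ nb M (v - v')) →
      ∀ A : Set (Λ → S), (∀ᶠ x in ae (bern d), (fun v : Λ => F (sh v.1 x)) ∈ A) →
        κ ^ Λ.card ≤ 4 * (A.ncard : ℝ) ^ 2 := by
  classical
  cases nonempty_fintype S
  -- all labels have probability at most `1 - δ`
  obtain ⟨δ, hδ, hδ1, hδF⟩ : ∃ δ : ℝ, 0 < δ ∧ δ ≤ 1 ∧
      ∀ s, (bern d).real {x | F x = s} ≤ 1 - δ := by
    have hpos : ∀ c, (∃ᶠ x in ae (bern d), F x = c) → 0 < (bern d).real {x | F x = c} := by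
      intro c hc
      refine lt_of_le_of_ne measureReal_nonneg fun h => ?_
      rw [eq_comm, measureReal_eq_zero_iff] at h
      exact (frequently_ae_iff.1 hc) h
    refine ⟨min ((bern d).real {x | F x = a}) ((bern d).real {x | F x = b}),
      lt_min (hpos a ha) (hpos b hb), (min_le_left _ _).trans measureReal_le_one, fun s => ?_⟩
    obtain ⟨c, hcs, hc⟩ : ∃ c, s ≠ c ∧
        min ((bern d).real {x | F x = a}) ((bern d).real {x | F x = b}) ≤
          (bern d).real {x | F x = c} := by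
      by_cases h : s = a
      · exact ⟨b, h ▸ hab, min_le_right _ _⟩
      · exact ⟨a, h, min_le_left _ _⟩
    have h1 : (bern d).real ({x | F x = s} ∪ {x | F x = c}) =
        (bern d).real {x | F x = s} + (bern d).real {x | F x = c} := by
      refine measureReal_union ?_ (hF c)
      rw [Set.disjoint_left]
      intro x hx hx'
      exact hcs (hx.symm.trans hx')
    have h2 : (bern d).real ({x | F x = s} ∪ {x | F x = c}) ≤ 1 := measureReal_le_one
    linarith
  obtain ⟨θ, m, hθ, hθ1, hm, hθδ, hθm⟩ := params δ (Fintype.card S) hδ hδ1 (Nat.cast_nonneg _)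
  have hm' : (0 : ℝ) < m := by exact_mod_cast hm
  have hε0 : 0 < min (1 / (4 * m) : ℝ) (δ / 2) := lt_min (by positivity) (by positivity)
  obtain ⟨W, F', hF', hdep, happ⟩ := cyl_approx d (bern d) F hF
    (ENNReal.ofReal (min (1 / (4 * m) : ℝ) (δ / 2))) (ENNReal.ofReal_pos.2 hε0)
  have hne : MeasurableSet {x | F x ≠ F' x} := (hF.pair hF').set {p | p.1 ≠ p.2}
  have hF'δ : ∀ s, (bern d).real {x | F' x = s} ≤ 1 - δ / 2 := by
    intro s
    have h1 : (bern d).real {x | F' x = s} ≤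
        (bern d).real {x | F x = s} + (bern d).real {x | F x ≠ F' x} := by
      refine (measureReal_mono (s₂ := {x | F x = s} ∪ {x | F x ≠ F' x}) ?_).trans
        (measureReal_union_le _ _)
      intro x hx
      by_cases h3 : F x = F' x
      · left
        exact h3.trans hx
      · right
        exact h3
    have h2 : (bern d).real {x | F x ≠ F' x} ≤ δ / 2 :=
      (ENNReal.toReal_le_of_le_ofReal hε0.le happ).trans (min_le_right _ _)
    have h3 := hδF s
    linarith
  -- the window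
  obtain ⟨M, hM⟩ : ∃ M : ℕ, ∀ w ∈ W, ∀ i, |w i| ≤ (M : ℤ) := by
    choose g hg using fun i : Fin d => CC.fin_bound (fun v : Gd d => v i) (W : Set (Gd d))
      W.finite_toSet
    refine ⟨∑ i, g i, fun w hw i => (hg i w hw).trans ?_⟩
    exact_mod_cast Finset.single_le_sum (f := g) (fun j _ => Nat.zero_le _) (Finset.mem_univ i)
  have hρ0 : 0 < 1 - δ / 4 := by linarith
  have hρ1 : 1 - δ / 4 < 1 := by linarith
  refine ⟨(1 - δ / 4)⁻¹, 2 * M, (one_lt_inv₀ hρ0).2 hρ1, fun Λ hΛ A hA => ?_⟩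
  obtain ⟨t, ht1, ht2⟩ : ∃ t : ℕ, 2 * m * t ≤ Λ.card ∧ Λ.card < 2 * m * (t + 1) :=
    ⟨Λ.card / (2 * m), Nat.mul_div_le _ _, by
      have := Nat.lt_mul_div_succ Λ.card (show 0 < 2 * m by omega)
      simpa [Nat.succ_eq_add_one] using this⟩
  have hfew := few_errors F F' hne m hm (happ.trans (ENNReal.ofReal_le_ofReal (min_le_left _ _)))
    Λ t ht2
  -- the good event is contained in the union of the Hamming balls
  have hdisj : ∀ v ∈ Λ, ∀ v' ∈ Λ, v ≠ v' → ∀ w ∈ W, ∀ w' ∈ W, w + v ≠ w' + v' := by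
    intro v hv v' hv' hvv w hw w' hw' h
    refine hΛ v hv v' hv' hvv fun i => ?_
    have h1 : v - v' = w' - w := by
      rw [sub_eq_sub_iff_add_eq_add, add_comm v w, h, add_comm]
    rw [h1, Pi.sub_apply]
    have h2 := hM w hw i
    have h3 := hM w' hw' i
    have h4 := abs_sub (w' i) (w i)
    push_cast
    linarith
  have hpat : ∀ u : Λ → S, (bern d).real {x | ∀ v : Λ, F' (sh v.1 x) = u v} ≤
      (1 - δ / 2) ^ Λ.card := by
    intro u
    have h1 := bern_indep_k W F' hdep hF' (fun v => if h : v ∈ Λ then u ⟨v, h⟩ else a) Λ hdisj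
    have h2 : {x : Om d | ∀ v ∈ Λ, F' (sh v x) = if h : v ∈ Λ then u ⟨v, h⟩ else a} =
        {x | ∀ v : Λ, F' (sh v.1 x) = u v} := by
      ext x
      constructor
      · intro h v
        have := h v.1 v.2
        rwa [dif_pos v.2] at this
      · intro h v hv
        rw [dif_pos hv]
        exact h ⟨v, hv⟩
    rw [h2] at h1
    unfold Measure.real
    rw [h1, ENNReal.toReal_prod]
    refine (Finset.prod_le_prod (fun v _ => ENNReal.toReal_nonneg) fun v _ => hF'δ _).trans ?_
    rw [Finset.prod_const]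
  have hAfin : A.Finite := Set.toFinite A
  have hV : ∀ w : Λ → S, ((Finset.univ.filter fun u : Λ → S =>
      (Finset.univ.filter fun v => u v ≠ w v).card ≤ t).card : ℝ) * θ ^ t ≤
      (1 + Fintype.card S * θ) ^ Λ.card := by
    intro w
    have h1 := hamming w t θ hθ hθ1
    rwa [Fintype.card_coe] at h1
  have hhalf : (1 / 2 : ℝ) ≤ ∑ w ∈ hAfin.toFinset, ∑ u ∈ Finset.univ.filter fun u : Λ → S =>
      (Finset.univ.filter fun v => u v ≠ w v).card ≤ t,
      (bern d).real {x | ∀ v : Λ, F' (sh v.1 x) = u v} := by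
    have h1 : (Set.univ : Set (Om d)) ⊆
        ({x | t + 1 ≤ (Λ.filter fun v => F (sh v x) ≠ F' (sh v x)).card} ∪
          {x | (fun v : Λ => F (sh v.1 x)) ∈ A}ᶜ) ∪
        ⋃ w ∈ hAfin.toFinset, ⋃ u ∈ Finset.univ.filter fun u : Λ → S =>
          (Finset.univ.filter fun v => u v ≠ w v).card ≤ t,
          {x | ∀ v : Λ, F' (sh v.1 x) = u v} := by
      intro x _
      by_cases hx1 : t + 1 ≤ (Λ.filter fun v => F (sh v x) ≠ F' (sh v x)).card
      · exact Or.inl (Or.inl hx1)
      by_cases hx2 : (fun v : Λ => F (sh v.1 x)) ∈ A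
      · right
        rw [Set.mem_iUnion₂]
        refine ⟨fun v : Λ => F (sh v.1 x), hAfin.mem_toFinset.2 hx2, ?_⟩
        rw [Set.mem_iUnion₂]
        refine ⟨fun v : Λ => F' (sh v.1 x), ?_, fun v => rfl⟩
        rw [Finset.mem_filter]
        refine ⟨Finset.mem_univ _, ?_⟩
        have h3 : (Finset.univ.filter fun v : Λ => F' (sh v.1 x) ≠ F (sh v.1 x)).card =
            (Λ.filter fun v => F (sh v x) ≠ F' (sh v x)).card := by
          rw [← Finset.card_map (Function.Embedding.subtype _)]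
          congr 1
          ext v
          simp only [Finset.mem_map, Finset.mem_filter, Finset.mem_univ, true_and,
            Function.Embedding.subtype_apply, Subtype.exists, exists_and_left, exists_prop]
          constructor
          · rintro ⟨v', h4, h5, rfl⟩
            exact ⟨h5, h4.symm⟩
          · rintro ⟨h4, h5⟩
            exact ⟨v, h5.symm, h4, rfl⟩
        rw [h3]
        omega
      · exact Or.inl (Or.inr hx2)
    have h2 : (1 : ℝ) ≤ (bern d).real
        {x | t + 1 ≤ (Λ.filter fun v => F (sh v x) ≠ F' (sh v x)).card} +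
        (bern d).real {x | (fun v : Λ => F (sh v.1 x)) ∈ A}ᶜ +
        ∑ w ∈ hAfin.toFinset, ∑ u ∈ Finset.univ.filter fun u : Λ → S =>
          (Finset.univ.filter fun v => u v ≠ w v).card ≤ t,
          (bern d).real {x | ∀ v : Λ, F' (sh v.1 x) = u v} := by
      calc (1 : ℝ) = (bern d).real Set.univ := by simp
        _ ≤ _ := measureReal_mono h1
        _ ≤ _ := measureReal_union_le _ _
        _ ≤ _ := add_le_add (measureReal_union_le _ _)
          ((measureReal_biUnion_finset_le _ _).trans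
            (Finset.sum_le_sum fun w _ => measureReal_biUnion_finset_le _ _))
    have h3 : (bern d).real {x | (fun v : Λ => F (sh v.1 x)) ∈ A}ᶜ = 0 := by
      rw [measureReal_eq_zero_iff]
      exact hA
    have h4 : (bern d).real
        {x | t + 1 ≤ (Λ.filter fun v => F (sh v x) ≠ F' (sh v x)).card} ≤ 1 / 2 :=
      ENNReal.toReal_le_of_le_ofReal (by norm_num) hfew
    linarith
  -- the numbers
  have hcard : hAfin.toFinset.card = A.ncard := (Set.ncard_eq_toFinset_card A hAfin).symm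
  have hsum : θ ^ t * (1 / 2) ≤ (A.ncard : ℝ) * (1 - δ / 4) ^ Λ.card := by
    have h1 : ∀ w ∈ hAfin.toFinset, θ ^ t * ∑ u ∈ Finset.univ.filter fun u : Λ → S =>
        (Finset.univ.filter fun v => u v ≠ w v).card ≤ t,
        (bern d).real {x | ∀ v : Λ, F' (sh v.1 x) = u v} ≤ (1 - δ / 4) ^ Λ.card := by
      intro w _
      have h2 : ∑ u ∈ Finset.univ.filter fun u : Λ → S =>
          (Finset.univ.filter fun v => u v ≠ w v).card ≤ t,
          (bern d).real {x | ∀ v : Λ, F' (sh v.1 x) = u v} ≤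
          ((Finset.univ.filter fun u : Λ → S =>
            (Finset.univ.filter fun v => u v ≠ w v).card ≤ t).card : ℝ) *
            (1 - δ / 2) ^ Λ.card := by
        refine (Finset.sum_le_card_nsmul _ _ _ fun u _ => hpat u).trans (le_of_eq ?_)
        rw [nsmul_eq_mul]
      have h3 : 0 ≤ 1 - δ / 2 := by linarith
      calc θ ^ t * _ ≤ θ ^ t * (((Finset.univ.filter fun u : Λ → S =>
            (Finset.univ.filter fun v => u v ≠ w v).card ≤ t).card : ℝ) *
            (1 - δ / 2) ^ Λ.card) := mul_le_mul_of_nonneg_left h2 (by positivity)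
        _ = (((Finset.univ.filter fun u : Λ → S =>
            (Finset.univ.filter fun v => u v ≠ w v).card ≤ t).card : ℝ) * θ ^ t) *
            (1 - δ / 2) ^ Λ.card := by ring
        _ ≤ (1 + Fintype.card S * θ) ^ Λ.card * (1 - δ / 2) ^ Λ.card :=
            mul_le_mul_of_nonneg_right (hV w) (by positivity)
        _ = ((1 + Fintype.card S * θ) * (1 - δ / 2)) ^ Λ.card := (mul_pow _ _ _).symm
        _ ≤ (1 - δ / 4) ^ Λ.card := pow_le_pow_left₀ (by positivity) hθδ _
    calc θ ^ t * (1 / 2) ≤ θ ^ t * ∑ w ∈ hAfin.toFinset,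
          ∑ u ∈ Finset.univ.filter fun u : Λ → S =>
            (Finset.univ.filter fun v => u v ≠ w v).card ≤ t,
            (bern d).real {x | ∀ v : Λ, F' (sh v.1 x) = u v} :=
          mul_le_mul_of_nonneg_left hhalf (by positivity)
      _ = ∑ w ∈ hAfin.toFinset, θ ^ t * ∑ u ∈ Finset.univ.filter fun u : Λ → S =>
            (Finset.univ.filter fun v => u v ≠ w v).card ≤ t,
            (bern d).real {x | ∀ v : Λ, F' (sh v.1 x) = u v} := Finset.mul_sum _ _ _
      _ ≤ hAfin.toFinset.card • (1 - δ / 4) ^ Λ.card := Finset.sum_le_card_nsmul _ _ _ h1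
      _ = (A.ncard : ℝ) * (1 - δ / 4) ^ Λ.card := by rw [nsmul_eq_mul, hcard]
  generalize (1 - δ / 4) = ρ at *
  have h1 : ρ ^ (m * t) ≤ θ ^ t := by
    rw [pow_mul]
    exact pow_le_pow_left₀ (by positivity) hθm t
  have h2 : ρ ^ Λ.card ≤ ρ ^ (2 * (m * t)) := by
    refine pow_le_pow_of_le_one hρ0.le hρ1.le ?_
    rw [← mul_assoc]
    exact ht1
  have h3 : (ρ ^ (m * t) * (1 / 2)) ^ 2 ≤ ((A.ncard : ℝ) * ρ ^ Λ.card) ^ 2 := by
    refine pow_le_pow_left₀ (by positivity) ?_ 2
    exact (mul_le_mul_of_nonneg_right h1 (by norm_num)).trans hsum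
  have h4 : (ρ ^ (m * t) * (1 / 2)) ^ 2 = ρ ^ (2 * (m * t)) / 4 := by
    rw [mul_pow, ← pow_mul, mul_comm (m * t) 2]
    ring
  rw [h4] at h3
  have h5 : ρ ^ Λ.card / 4 ≤ ((A.ncard : ℝ) * ρ ^ Λ.card) ^ 2 :=
    (div_le_div_of_nonneg_right h2 (by norm_num)).trans h3
  have h6 : 0 < ρ ^ Λ.card := by positivity
  rw [inv_pow, inv_le_iff_one_le_mul₀ h6]
  have h7 : ρ ^ Λ.card * 1 ≤ ρ ^ Λ.card * (4 * (A.ncard : ℝ) ^ 2 * ρ ^ Λ.card) := by
    nlinarith
  exact le_of_mul_le_mul_left h7 h6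

end ZE
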