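import Pool.Agent.Helper27.EB.Mix2C
import Pool.Agent.Helper68.CC.Phi

/-!
# ZE: independence along sparse sets, Baire category

If all the values `u v`, `v ∈ Λ`, are taken by `F` on non-meagre sets and the points of `Λ` have differences
outside of the box with radius `M`, then non-meagrely many `x` satisfy `F (sh v x) = u v` for all `v ∈ Λ`.
-/

set_option autoImplicit false

namespace ZE

open EB MeasureTheory

private theorem cont_sh {d : ℕ} (g : Gd d) : Continuous (sh g : Om d → Om d) :=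
  continuous_pi fun h => continuous_apply (h + g)

private theorem win {d : ℕ} (U : Set (Om d)) (hU : IsOpen U) :
    ∃ (W : Finset (Gd d)) (α : Om d), U.Nonempty →
      ∀ y : Om d, (∀ w ∈ W, y w = α w) → y ∈ U := by
  by_cases hne : U.Nonempty
  · obtain ⟨α, hα⟩ := hne
    obtain ⟨I, u, h1, h2⟩ := isOpen_pi_iff.1 hU α hα
    refine ⟨I, α, fun _ y hy => h2 fun i hi => ?_⟩
    rw [hy i hi]
    exact (h1 i hi).2
  · exact ⟨∅, fun _ => false, fun h => absurd h hne⟩

theorem indep_resid (d : ℕ) {S : Type} [Finite S] (F : Om d → S) (hF : Ms F) :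
    ∃ M : ℕ, ∀ Λ : Finset (Gd d), (∀ v ∈ Λ, ∀ v' ∈ Λ, v ≠ v' → ¬ nb M (v - v')) →
      ∀ u : Gd d → S, (∀ v ∈ Λ, ∃ᶠ x in residual (Om d), F x = u v) →
        ∃ᶠ x in residual (Om d), ∀ v ∈ Λ, F (sh v x) = u v := by
  classical
  cases nonempty_fintype S
  choose U hUo hU using fun a : S => (hF a).residualEq_isOpen
  have hR : ∀ᶠ x in residual (Om d), ∀ a, (F x = a ↔ x ∈ U a) := by
    rw [Filter.eventually_all]
    intro a
    filter_upwards [hU a] with x hx
    exact iff_of_eq hx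
  choose W α hW using fun a : S => win (U a) (hUo a)
  obtain ⟨M, hM⟩ : ∃ M : ℕ, ∀ a, ∀ w ∈ W a, ∀ i, |w i| ≤ (M : ℤ) := by
    choose g hg using fun i : Fin d => CC.fin_bound (fun v : Gd d => v i)
      ((Finset.univ.biUnion W : Finset (Gd d)) : Set (Gd d)) (Finset.finite_toSet _)
    refine ⟨∑ i, g i, fun a w hw i => (hg i w ?_).trans ?_⟩
    · exact Finset.mem_coe.2 (Finset.mem_biUnion.2 ⟨a, Finset.mem_univ a, hw⟩)
    · exact_mod_cast Finset.single_le_sum (f := g) (fun j _ => Nat.zero_le _) (Finset.mem_univ i)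
  refine ⟨2 * M, fun Λ hΛ u hu => ?_⟩
  have hne : ∀ v ∈ Λ, (U (u v)).Nonempty := by
    intro v hv
    obtain ⟨x, hx1, hx2⟩ := ((hu v hv).and_eventually hR).exists
    exact ⟨x, (hx2 _).1 hx1⟩
  -- the windows are disjoint
  have hdisj : ∀ v ∈ Λ, ∀ v' ∈ Λ, ∀ w ∈ W (u v), ∀ w' ∈ W (u v'), w + v = w' + v' → v = v' := by
    intro v hv v' hv' w hw w' hw' h
    by_contra hvv
    refine hΛ v hv v' hv' hvv fun i => ?_
    have h1 : v - v' = w' - w := by
      rw [sub_eq_sub_iff_add_eq_add, add_comm v w, h, add_comm]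
    rw [h1, Pi.sub_apply]
    have h2 := hM _ w hw i
    have h3 := hM _ w' hw' i
    have h4 := abs_sub (w' i) (w i)
    push_cast
    linarith
  -- the open set
  have hO : IsOpen (⋂ v ∈ Λ, sh v ⁻¹' U (u v)) :=
    isOpen_biInter_finset fun v _ => (hUo _).preimage (cont_sh v)
  have hOne : (⋂ v ∈ Λ, sh v ⁻¹' U (u v)).Nonempty := by
    refine ⟨fun h => if hh : ∃ v ∈ Λ, h - v ∈ W (u v) then α (u hh.choose) (h - hh.choose)
      else false, ?_⟩
    rw [Set.mem_iInter₂]
    intro v hv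
    refine hW _ (hne v hv) _ fun w hw => ?_
    have hh : ∃ v' ∈ Λ, w + v - v' ∈ W (u v') := ⟨v, hv, by rwa [add_sub_cancel_right]⟩
    show (if hh : ∃ v' ∈ Λ, w + v - v' ∈ W (u v') then
      α (u hh.choose) (w + v - hh.choose) else false) = α (u v) w
    rw [dif_pos hh]
    obtain ⟨h1, h2⟩ := hh.choose_spec
    have h3 : v = hh.choose := hdisj v hv _ h1 w hw _ h2 (by rw [sub_add_cancel])
    rw [← h3, add_sub_cancel_right]
  intro hcon
  have hres : ∀ᶠ x in residual (Om d), ¬ (∀ v ∈ Λ, F (sh v x) = u v) ∧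
      ∀ v ∈ Λ, ∀ a, (F (sh v x) = a ↔ sh v x ∈ U a) := by
    refine Filter.Eventually.and hcon ?_
    rw [Filter.eventually_all_finset]
    exact fun v _ => resid_inv d v _ hR
  obtain ⟨x, hx1, hx2, hx3⟩ := (dense_of_mem_residual hres).inter_open_nonempty _ hO hOne
  rw [Set.mem_iInter₂] at hx1
  exact hx2 fun v hv => (hx3 v hv _).2 (hx1 v hv)

/-- exponentially many patterns, Baire category -/
theorem count_resid {d : ℕ} {S : Type} [Finite S] (F : Om d → S) (hF : Ms F) (a b : S)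
    (hab : a ≠ b) (ha : ∃ᶠ x in residual (Om d), F x = a)
    (hb : ∃ᶠ x in residual (Om d), F x = b) :
    ∃ (κ : ℝ) (M : ℕ), 1 < κ ∧ ∀ Λ : Finset (Gd d),
      (∀ v ∈ Λ, ∀ v' ∈ Λ, v ≠ v' → ¬ nb M (v - v')) →
      ∀ A : Set (Λ → S), (∀ᶠ x in residual (Om d), (fun v : Λ => F (sh v.1 x)) ∈ A) →
        κ ^ Λ.card ≤ 4 * (A.ncard : ℝ) ^ 2 := by
  classical
  obtain ⟨M, hM⟩ := indep_resid d F hF
  refine ⟨2, M, by norm_num, fun Λ hΛ A hA => ?_⟩
  have h1 : ∀ σ : Λ → Bool, (fun v => if σ v then a else b) ∈ A := by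
    intro σ
    have h2 := hM Λ hΛ (fun v => if h : v ∈ Λ then (if σ ⟨v, h⟩ then a else b) else a) (by
      intro v hv
      rw [dif_pos hv]
      by_cases h : σ ⟨v, hv⟩ = true
      · rw [if_pos h]
        exact ha
      · rw [if_neg h]
        exact hb)
    obtain ⟨x, hx, hxA⟩ := (h2.and_eventually hA).exists
    have h3 : (fun v : Λ => F (sh v.1 x)) = fun v => if σ v then a else b := by
      funext v
      have := hx v.1 v.2
      rwa [dif_pos v.2] at this
    rw [← h3]
    exact hxA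
  have h2 : 2 ^ Λ.card ≤ A.ncard := by
    have h3 : Function.Injective fun (σ : Λ → Bool) (v : Λ) => if σ v then a else b := by
      intro σ τ h
      funext v
      have h4 := congrFun h v
      dsimp only at h4
      cases h5 : σ v <;> cases h6 : τ v <;> rw [h5, h6] at h4 <;> simp at h4 ⊢
      · exact hab h4.symm
      · exact hab h4
    have h4 : (Set.range fun (σ : Λ → Bool) (v : Λ) => if σ v then a else b) ⊆ A := by
      rintro _ ⟨σ, rfl⟩
      exact h1 σ
    have h5 := Set.ncard_le_ncard h4 (Set.toFinite A)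
    rw [Set.ncard_range_of_injective h3] at h5
    · simpa using h5
  have h3 : (2 : ℝ) ^ Λ.card ≤ A.ncard := by exact_mod_cast h2
  have h4 : (1 : ℝ) ≤ A.ncard := le_trans (one_le_pow₀ (by norm_num)) h3
  nlinarith

end ZE
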