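import Pool.Agent.Helper27.EB.DefsB

/-!
# MP_eb515b_lc: LCL problems over a factor with zero entropy
-/

set_option autoImplicit false

namespace ZE

open EB

/-- the box with side `n` -/
def Box (d n : ℕ) : Set (Gd d) := {v | ∀ i, 0 ≤ v i ∧ v i < n}

/-- the images under `π` of the restrictions of the solutions on the grid `Z^d` to the box with side
`n` -/
def pats {S Q : Type} (d : ℕ) (L : LCL S) (π : S → Q) (n : ℕ) : Set (Box d n → Q) :=
  {w | ∃ y : Gd d → S, IsSol L (grid d) y ∧ ∀ v, w v = π (y v)}

/-- The images under `π` of the solutions on the grid `Z^d` have entropy zero: `log N(n) / n ^ d` tends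
to `0`, where `N(n)` is the number of the images of the restrictions of the solutions to the box with
side `n`. -/
def ZeroEntropy {S Q : Type} (d : ℕ) (L : LCL S) (π : S → Q) : Prop :=
  Filter.Tendsto (fun n : ℕ => Real.log ((pats d L π n).ncard : ℝ) / (n : ℝ) ^ d) Filter.atTop
    (nhds 0)

/-- the LCL problem `L` with the labels restricted to the fibre of `π` over `q` -/
def fib {S Q : Type} (L : LCL S) (π : S → Q) (q : Q) : LCL S where
  r := L.r
  P A := L.P A ∧ ∀ v, π (A.lab v) = q
  iso := by
    rintro A B ⟨e, he, hl⟩ ⟨hA, hq⟩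
    refine ⟨L.iso A B ⟨e, he, hl⟩ hA, fun v => ?_⟩
    have h1 := hl (e.symm v)
    have h2 : e (e.symm v) = v := e.apply_symm_apply v
    rw [h2] at h1
    rw [h1]
    exact hq _

end ZE
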