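import Pool.Agent.Helper27.EB.Resid

/-!
# ZE: residual sets of the free part
-/

set_option autoImplicit false

namespace ZE

open EB

theorem resid_pull (d : ℕ) (E : Set (Om d)) (hE : E ∈ residual (Om d)) :
    (Subtype.val ⁻¹' E : Set (FP d)) ∈ residual (FP d) := by
  have hd : Dense (FP d) := dense_of_mem_residual (resid_FP d)
  obtain ⟨S, hSo, hSd, hSc, hSE⟩ := mem_residual_iff.1 hE
  have h1 : (⋂ t ∈ S, (Subtype.val ⁻¹' t : Set (FP d))) ∈ residual (FP d) := by
    rw [countable_bInter_mem hSc]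
    intro t ht
    refine residual_of_dense_open ((hSo t ht).preimage continuous_subtype_val) ?_
    rw [dense_iff_inter_open]
    intro V hV hVne
    obtain ⟨V', hV', rfl⟩ := isOpen_induced_iff.1 hV
    obtain ⟨x, hx⟩ := hVne
    obtain ⟨y, hy1, hy2⟩ := (hSd t ht).inter_open_nonempty V' hV' ⟨x.1, hx⟩
    obtain ⟨z, ⟨hz1, hz2⟩, hz3⟩ := hd.inter_open_nonempty _ (hV'.inter (hSo t ht)) ⟨y, hy1, hy2⟩
    exact ⟨⟨z, hz3⟩, hz1, hz2⟩
  refine Filter.mem_of_superset h1 ?_
  intro x hx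
  refine hSE ?_
  intro t ht
  exact Set.mem_iInter₂.1 hx t ht

end ZE
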