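import Pool.Agent.Helper27.EB.FinalB
import Pool.Agent.Helper68.ZE.Defs
import Pool.Agent.Helper68.ZE.CountB
import Pool.Agent.Helper68.ZE.CountR
import Pool.Agent.Helper68.ZE.Pull

/-!
# ZE: assembly
-/

set_option autoImplicit false

namespace ZE

open MeasureTheory EB

/-- the labelling of the whole space defined by a solution on a set of the filter -/
theorem field_of {d : ℕ} {S : Type} [Finite S] (L : LCL S) (l : Filter (Om d)) [l.NeBot]
    (C : Set (FP d)) (hCm : MeasurableSet C) (hCi : Inv (fshift d) C)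
    (hCl : Subtype.val '' C ∈ l) (f : C → S) (hf : ∀ s, MeasurableSet {x | f x = s})
    (hsol : ∀ x : C, Allowed d L fun b => f ⟨(fshift d).T b.1 x.1, hCi b.1 x.1 x.2⟩) :
    ∃ φ : Om d → S, Ms φ ∧ (∀ y : C, φ y.1.1 = f y) ∧ ∀ᶠ x in l, (fun v => φ (sh v x)) ∈
      Ysub (ball (grid d) L.r 0) {w | Allowed d L w} := by
  classical
  obtain ⟨x0, hx0⟩ : (Subtype.val '' C : Set (Om d)).Nonempty := Filter.nonempty_of_mem hCl
  obtain ⟨y0, hy0, -⟩ := hx0
  obtain ⟨s0, hs0⟩ : ∃ s0 : S, s0 = f ⟨y0, hy0⟩ := ⟨_, rfl⟩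
  obtain ⟨φ, hφ⟩ : ∃ φ : Om d → S, φ = fun x =>
      if h : ∃ hx : x ∈ FP d, (⟨x, hx⟩ : FP d) ∈ C then f ⟨⟨x, h.1⟩, h.2⟩ else s0 := ⟨_, rfl⟩
  have hφ1 : ∀ y : C, φ y.1.1 = f y := by
    intro y
    rw [hφ]
    exact dif_pos ⟨y.1.2, y.2⟩
  have hφ0 : ∀ x, x ∉ Subtype.val '' C → φ x = s0 := by
    intro x hx
    rw [hφ]
    refine dif_neg ?_
    rintro ⟨h1, h2⟩
    exact hx ⟨⟨x, h1⟩, h2, rfl⟩
  have hCm' : MeasurableSet (Subtype.val '' C : Set (Om d)) := (FP_meas d).subtype_image hCm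
  have hφm : Ms φ := by
    intro s
    have h1 : {x | φ x = s} = (Subtype.val '' (Subtype.val '' {y : C | f y = s})) ∪
        ((Subtype.val '' C)ᶜ ∩ {_x : Om d | s0 = s}) := by
      ext x
      simp only [Set.mem_union, Set.mem_inter_iff, Set.mem_compl_iff, Set.mem_ofPred_eq]
      constructor
      · intro hx
        by_cases h : x ∈ Subtype.val '' C
        · left
          obtain ⟨y, hy, rfl⟩ := h
          refine ⟨y, ⟨⟨y, hy⟩, ?_, rfl⟩, rfl⟩
          have := hφ1 ⟨y, hy⟩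
          exact this.symm.trans hx
        · right
          exact ⟨h, (hφ0 x h).symm.trans hx⟩
      · rintro (⟨_, ⟨y, hy, rfl⟩, rfl⟩ | ⟨h, h0⟩)
        · exact (hφ1 y).trans hy
        · rw [hφ0 x h]
          exact h0
    rw [h1]
    refine ((FP_meas d).subtype_image (hCm.subtype_image (hf s))).union (hCm'.compl.inter ?_)
    exact MeasurableSet.const _
  have hYev : ∀ᶠ x in l, (fun v => φ (sh v x)) ∈
      Ysub (ball (grid d) L.r 0) {w | Allowed d L w} := by
    filter_upwards [hCl] with x hx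
    obtain ⟨y, hy, rfl⟩ := hx
    intro v
    have hv := hCi v y hy
    have h1 := hsol ⟨(fshift d).T v y, hv⟩
    have h2 : (fun b : ball (grid d) L.r 0 => φ (sh (v + b.1) y.1)) =
        fun b : ball (grid d) L.r 0 =>
          f ⟨(fshift d).T b.1 ((fshift d).T v y), hCi b.1 _ hv⟩ := by
      funext b
      rw [← hφ1]
      show φ (sh (v + b.1) y.1) = φ (sh b.1 (sh v y.1))
      rw [← sh_add, add_comm]
    show Allowed d L _
    rw [h2]
    exact h1
  exact ⟨φ, hφm, hφ1, hYev⟩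

theorem emb_grid {d : ℕ} (v : Gd d) : IsEmb (grid d) fun g => v + g where
  inj _ _ h := add_left_cancel h
  adj g h := by
    rw [adj_grid, adj_grid]
    simp only [ne_eq, add_right_inj, add_assoc]
  nbr g y _ := ⟨y - v, by rw [add_sub_cancel]⟩

theorem sol_grid_iff {d : ℕ} {S : Type} (L : LCL S) (y : Gd d → S) :
    IsSol L (grid d) y ↔ y ∈ Ysub (ball (grid d) L.r 0) {w | Allowed d L w} := by
  refine forall_congr' fun v => ?_
  have h := (emb_grid v).iso L.r y (v := v) (add_zero v)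
  exact ⟨fun hp => L.iso _ _ h.symm hp, fun hp => L.iso _ _ h hp⟩

instance box_finite (d n : ℕ) : Finite (Box d n) := by
  refine ((Set.finite_Icc (fun _ => 0 : Gd d) (fun _ => (n : ℤ))).subset ?_).to_subtype
  intro v hv
  exact ⟨fun i => (hv i).1, fun i => (hv i).2.le⟩

/-- the sparse set `p {0, ..., m-1} ^ d` -/
def lat (d p m : ℕ) : Finset (Gd d) :=
  (Finset.univ : Finset (Fin d → Fin m)).image fun f i => (p : ℤ) * ((f i : ℕ) : ℤ)

theorem lat_card (d p m : ℕ) (hp : 0 < p) : (lat d p m).card = m ^ d := by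
  unfold lat
  rw [Finset.card_image_of_injective]
  · simp
  · intro f g h
    funext i
    have h1 := congrFun h i
    have hp' : (p : ℤ) ≠ 0 := by exact_mod_cast hp.ne'
    have h2 := mul_left_cancel₀ hp' h1
    exact Fin.ext (by exact_mod_cast h2)

theorem lat_box (d p m : ℕ) (hp : 0 < p) : ∀ v ∈ lat d p m, v ∈ Box d (p * m) := by
  intro v hv i
  obtain ⟨f, -, rfl⟩ := Finset.mem_image.1 hv
  have h1 := (f i).2
  have hp' : (0 : ℤ) < p := by exact_mod_cast hp
  refine ⟨by positivity, ?_⟩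
  push_cast
  exact mul_lt_mul_of_pos_left (by exact_mod_cast h1) hp'

theorem lat_far (d p m M : ℕ) (hp : M < p) :
    ∀ v ∈ lat d p m, ∀ v' ∈ lat d p m, v ≠ v' → ¬ nb M (v - v') := by
  intro v hv v' hv' hvv h
  obtain ⟨f, -, rfl⟩ := Finset.mem_image.1 hv
  obtain ⟨g, -, rfl⟩ := Finset.mem_image.1 hv'
  apply hvv
  funext i
  have h1 := h i
  have h2 : ((fun i => (p : ℤ) * ((f i : ℕ) : ℤ)) - fun i => (p : ℤ) * ((g i : ℕ) : ℤ)) i =
      (p : ℤ) * (((f i : ℕ) : ℤ) - ((g i : ℕ) : ℤ)) := by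
    rw [Pi.sub_apply]
    ring
  rw [h2, abs_mul, Nat.abs_cast] at h1
  have h3 : |((f i : ℕ) : ℤ) - ((g i : ℕ) : ℤ)| < 1 := by
    by_contra h4
    push Not at h4
    have hp' : (M : ℤ) < p := by exact_mod_cast hp
    nlinarith
  have h5 := Int.abs_lt_one_iff.1 h3
  have h6 : ((f i : ℕ) : ℤ) = ((g i : ℕ) : ℤ) := sub_eq_zero.1 h5
  show (p : ℤ) * _ = (p : ℤ) * _
  rw [h6]

/-- exponentially many patterns contradict entropy zero -/
theorem no_count {d : ℕ} (hd : 1 ≤ d) {S Q : Type} [Finite Q] (L : LCL S) (π : S → Q)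
    (hL : ZeroEntropy d L π) (l : Filter (Om d)) (φ : Om d → S)
    (hY : ∀ᶠ x in l, (fun v => φ (sh v x)) ∈ Ysub (ball (grid d) L.r 0) {w | Allowed d L w})
    (κ : ℝ) (M : ℕ) (hκ : 1 < κ)
    (h : ∀ Λ : Finset (Gd d), (∀ v ∈ Λ, ∀ v' ∈ Λ, v ≠ v' → ¬ nb M (v - v')) →
      ∀ A : Set (Λ → Q), (∀ᶠ x in l, (fun v : Λ => π (φ (sh v.1 x))) ∈ A) →
        κ ^ Λ.card ≤ 4 * (A.ncard : ℝ) ^ 2) : False := by
  classical
  obtain ⟨p, hp⟩ : ∃ p : ℕ, p = M + 1 := ⟨_, rfl⟩
  have hp0 : 0 < p := by omega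
  have key : ∀ m : ℕ, κ ^ (m ^ d) ≤ 4 * ((pats d L π (p * m)).ncard : ℝ) ^ 2 := by
    intro m
    have h1 := h (lat d p m) (lat_far d p m M (by omega))
      ((fun (w : Box d (p * m) → Q) (v : lat d p m) =>
        w ⟨v.1, lat_box d p m hp0 v.1 v.2⟩) '' pats d L π (p * m)) (by
      filter_upwards [hY] with x hx
      refine ⟨fun v => π (φ (sh v.1 x)), ⟨fun v => φ (sh v x), (sol_grid_iff L _).2 hx,
        fun v => rfl⟩, rfl⟩)
    rw [lat_card d p m hp0] at h1
    have h2 : ((fun (w : Box d (p * m) → Q) (v : lat d p m) =>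
        w ⟨v.1, lat_box d p m hp0 v.1 v.2⟩) '' pats d L π (p * m)).ncard ≤
        (pats d L π (p * m)).ncard := Set.ncard_image_le (Set.toFinite _)
    have h3 : (((fun (w : Box d (p * m) → Q) (v : lat d p m) =>
        w ⟨v.1, lat_box d p m hp0 v.1 v.2⟩) '' pats d L π (p * m)).ncard : ℝ) ≤
        ((pats d L π (p * m)).ncard : ℝ) := by exact_mod_cast h2
    have h4 := pow_le_pow_left₀ (Nat.cast_nonneg _) h3 2
    linarith
  have hlog : 0 < Real.log κ := Real.log_pos hκ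
  have hp' : (0 : ℝ) < p := by exact_mod_cast hp0
  have hlim : Filter.Tendsto (fun m : ℕ => Real.log ((pats d L π (p * m)).ncard : ℝ) /
      ((p * m : ℕ) : ℝ) ^ d) Filter.atTop (nhds 0) :=
    hL.comp (Filter.tendsto_id.const_mul_atTop' hp0)
  have hε : 0 < Real.log κ / (4 * (p : ℝ) ^ d) := by positivity
  have h5 := hlim.eventually (gt_mem_nhds hε)
  obtain ⟨m, hm1, hm2, hm3⟩ := (h5.and ((Filter.eventually_gt_atTop 0).and
    (Filter.eventually_gt_atTop ⌈2 * Real.log 4 / Real.log κ⌉₊))).exists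
  have hm' : (0 : ℝ) < m := by exact_mod_cast hm2
  have h6 : Real.log ((pats d L π (p * m)).ncard : ℝ) ≤ Real.log κ / 4 * (m : ℝ) ^ d := by
    have h7 := hm1.le
    rw [div_le_iff₀ (by positivity)] at h7
    refine h7.trans (le_of_eq ?_)
    push_cast
    rw [mul_pow]
    field_simp
  have h8 := key m
  have hN : (0 : ℝ) < (pats d L π (p * m)).ncard := by
    rcases Nat.eq_zero_or_pos (pats d L π (p * m)).ncard with h9 | h9
    · rw [h9] at h8
      have h10 : (0 : ℝ) < κ ^ (m ^ d) := by positivity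
      norm_num at h8
      linarith
    · exact_mod_cast h9
  have h9 := Real.log_le_log (by positivity) h8
  rw [Real.log_pow, Real.log_mul (by norm_num) (by positivity), Real.log_pow] at h9
  push_cast at h9
  have h10 : (m : ℝ) ≤ (m : ℝ) ^ d := by
    have h11 : (1 : ℝ) ≤ m := by exact_mod_cast hm2
    calc (m : ℝ) = (m : ℝ) ^ 1 := (pow_one _).symm
      _ ≤ (m : ℝ) ^ d := pow_le_pow_right₀ h11 hd
  have h12 : 2 * Real.log 4 / Real.log κ < m := (Nat.le_ceil _).trans_lt (by exact_mod_cast hm3)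
  rw [div_lt_iff₀ hlog] at h12
  nlinarith

/-- A solution on a set of the filter is, on a smaller set of the filter, a solution of the problem of
one fibre. -/
theorem mainZ {d : ℕ} (hd : 1 ≤ d) {S Q : Type} [Finite S] [Finite Q] (L : LCL S) (π : S → Q)
    (hL : ZeroEntropy d L π) (l : Filter (Om d)) [l.NeBot] [CountableInterFilter l]
    (hinv : ∀ (g : Gd d) (E : Set (Om d)), E ∈ l → sh g ⁻¹' E ∈ l)
    (hcount : ∀ (F : Om d → Q), Ms F → ∀ a b, a ≠ b → (∃ᶠ x in l, F x = a) →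
      (∃ᶠ x in l, F x = b) → ∃ (κ : ℝ) (M : ℕ), 1 < κ ∧ ∀ Λ : Finset (Gd d),
        (∀ v ∈ Λ, ∀ v' ∈ Λ, v ≠ v' → ¬ nb M (v - v')) →
        ∀ A : Set (Λ → Q), (∀ᶠ x in l, (fun v : Λ => F (sh v.1 x)) ∈ A) →
          κ ^ Λ.card ≤ 4 * (A.ncard : ℝ) ^ 2)
    (C : Set (FP d)) (hCm : MeasurableSet C) (hCi : Inv (fshift d) C)
    (hCl : Subtype.val '' C ∈ l) (hS : BorelSolOn (fshift d) L C) :
    ∃ (q : Q) (E : Set (Om d)), MeasurableSet E ∧ E ∈ l ∧
      Inv (fshift d) (C ∩ Subtype.val ⁻¹' E) ∧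
      BorelSolOn (fshift d) (fib L π q) (C ∩ Subtype.val ⁻¹' E) := by
  obtain ⟨f, hf, hsol⟩ := hS
  rw [sol_iff (fshift d) L C hCi f] at hsol
  obtain ⟨φ, hφm, hφ1, hY⟩ := field_of L l C hCm hCi hCl f hf hsol
  have hπm : Ms fun x => π (φ x) := hφm.comp π
  -- some label is taken frequently
  obtain ⟨a, ha⟩ : ∃ a, ∃ᶠ x in l, π (φ x) = a := by
    by_contra hcon
    push Not at hcon
    have h1 : ∀ᶠ x in l, ∀ a, π (φ x) ≠ a := by
      rw [Filter.eventually_all]
      intro a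
      exact hcon a
    obtain ⟨x, hx⟩ := h1.exists
    exact hx _ rfl
  -- the other labels are not
  have h2 : ∀ᶠ x in l, π (φ x) = a := by
    by_contra hcon
    have h3 : ∃ᶠ x in l, ∃ b, b ≠ a ∧ π (φ x) = b :=
      (Filter.not_eventually.1 hcon).mono fun x hx => ⟨_, hx, rfl⟩
    obtain ⟨b, hb, hb'⟩ : ∃ b, b ≠ a ∧ ∃ᶠ x in l, π (φ x) = b := by
      by_contra hcon2
      push Not at hcon2
      apply h3
      have h4 : ∀ᶠ x in l, ∀ b, b ≠ a → π (φ x) ≠ b := by
        rw [Filter.eventually_all]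
        intro b
        by_cases hb : b = a
        · exact Filter.Eventually.of_forall fun x h => absurd hb h
        · exact (hcon2 b hb).mono fun x hx _ => hx
      exact h4.mono fun x hx ⟨b, hb, hxb⟩ => hx b hb hxb
    obtain ⟨κ, M, hκ, h4⟩ := hcount (fun x => π (φ x)) hπm a b hb.symm ha hb'
    exact no_count hd L π hL l φ hY κ M hκ h4
  have h3 : ∀ᶠ x in l, ∀ v, π (φ (sh v x)) = a := by
    rw [eventually_countable_forall]
    exact fun v => hinv v _ h2
  have hEi : Inv (fshift d) (C ∩ Subtype.val ⁻¹' {x : Om d | ∀ v, π (φ (sh v x)) = a}) := by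
    rintro g x ⟨hx, hx'⟩
    refine ⟨hCi g x hx, fun v => ?_⟩
    show π (φ (sh v (sh g x.1))) = a
    rw [← sh_add]
    exact hx' _
  refine ⟨a, {x | ∀ v, π (φ (sh v x)) = a}, ?_, h3, hEi, ?_⟩
  · have h4 : {x : Om d | ∀ v, π (φ (sh v x)) = a} = ⋂ v, sh v ⁻¹' {x | π (φ x) = a} := by
      ext x
      simp
    rw [h4]
    exact MeasurableSet.iInter fun v => sh_meas v (hπm a)
  · refine ⟨fun x => f ⟨x.1, x.2.1⟩, fun s => ?_, ?_⟩
    · have h5 : Measurable (Set.inclusion (Set.inter_subset_left :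
          C ∩ Subtype.val ⁻¹' {x : Om d | ∀ v, π (φ (sh v x)) = a} ⊆ C)) :=
        measurable_inclusion _
      exact h5 (hf s)
    · rw [sol_iff (fshift d) (fib L π a) _ hEi]
      intro x
      refine ⟨hsol ⟨x.1, x.2.1⟩, ?_⟩
      intro v
      have h6 := hφ1 ⟨(fshift d).T v.1 x.1, hCi v.1 x.1 x.2.1⟩
      have h7 := x.2.2 v.1
      exact (congrArg π h6).symm.trans h7

/-- a fibre with at most one label -/
theorem single_const {d : ℕ} {S Q : Type} (L : LCL S) (π : S → Q) (q : Q)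
    (h : ∀ s s', π s = q → π s' = q → s = s') (C : Set (FP d)) (hC : C.Nonempty)
    (hCi : Inv (fshift d) C) (hS : BorelSolOn (fshift d) (fib L π q) C) :
    ConstSol d (fib L π q) := by
  obtain ⟨f, -, hsol⟩ := hS
  rw [sol_iff (fshift d) (fib L π q) C hCi f] at hsol
  obtain ⟨x, hx⟩ := hC
  have h1 := hsol ⟨x, hx⟩
  refine ⟨f ⟨(fshift d).T (0 : Gd d) x, hCi 0 x hx⟩, ?_⟩
  have h2 : (fun b : ball (grid d) (fib L π q).r 0 =>
      f ⟨(fshift d).T b.1 x, hCi b.1 x hx⟩) =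
      fun _ => f ⟨(fshift d).T (0 : Gd d) x, hCi 0 x hx⟩ := by
    funext b
    exact h _ _ (h1.2 b) (h1.2 ⟨0, self_mem_ball _ _ _⟩)
  exact (congrArg (fun w => Allowed d (fib L π q) w) h2).mp h1

theorem borel_of_fib {d : ℕ} {X S Q : Type} [MeasurableSpace X] (a : FreeAct d X) (L : LCL S)
    (π : S → Q) (q : Q) (h : BorelSol a (fib L π q)) : BorelSol a L := by
  obtain ⟨f, hf, hsol⟩ := h
  exact ⟨f, hf, fun v => (hsol v).1⟩

/-- MP_eb515b_lc, LCL problems over a factor with entropy zero. -/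
theorem factor_tfae (d : ℕ) (hd : 1 ≤ d) {S Q : Type} [Finite S] [Finite Q] (L : LCL S)
    (π : S → Q) (hL : ZeroEntropy d L π)
    (hfib : ∀ q, (∀ s s', π s = q → π s' = q → s = s') ∨
      (BernSol d (fib L π q) ∨ BaireSol d (fib L π q) →
        ∀ (X : Type) [MeasurableSpace X] [StandardBorelSpace X] (a : FreeAct d X),
          BorelSol a (fib L π q))) :
    List.TFAE [
      ∃ q, (∀ (X : Type) [MeasurableSpace X] [StandardBorelSpace X] (a : FreeAct d X),
          BorelSol a (fib L π q)) ∧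
        ((∀ s s', π s = q → π s' = q → s = s') → ConstSol d (fib L π q)),
      ∀ (X : Type) [MeasurableSpace X] [StandardBorelSpace X] (a : FreeAct d X), BorelSol a L,
      BorelSol (fshift d) L,
      MeasSol d L,
      BernSol d L,
      BaireSol d L] := by
  have hne : (residual (Om d)).NeBot := (good_resid 2 0 d Nat.prime_two).ne
  have hFP : StandardBorelSpace (FP d) := (FP_meas d).standardBorel
  have hfib' : ∀ q, BernSol d (fib L π q) ∨ BaireSol d (fib L π q) →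
      (∀ (X : Type) [MeasurableSpace X] [StandardBorelSpace X] (a : FreeAct d X),
          BorelSol a (fib L π q)) ∧
        ((∀ s s', π s = q → π s' = q → s = s') → ConstSol d (fib L π q)) := by
    intro q hq
    have h1 : (∀ s s', π s = q → π s' = q → s = s') → ConstSol d (fib L π q) := by
      intro h
      rcases hq with ⟨C, hC, hCi, hC0, hs⟩ | ⟨C, hC, hCi, hC0, hs⟩
      · have h2 : (Subtype.val '' C : Set (Om d)).Nonempty :=
          Filter.nonempty_of_mem (f := ae (bern d)) (mem_ae_iff.2 hC0)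
        exact single_const L π q h C h2.of_image hCi hs
      · have h2 : (Subtype.val '' C : Set (Om d)).Nonempty :=
          Filter.nonempty_of_mem (resid_sub d C hC0)
        exact single_const L π q h C h2.of_image hCi hs
    refine ⟨?_, h1⟩
    rcases hfib q with h | h
    · intro X _ _ a
      exact const_borel _ (h1 h) a
    · exact h hq
  tfae_have 1 → 2 := fun ⟨q, h, _⟩ X _ _ a => borel_of_fib a L π q (h X a)
  tfae_have 2 → 3 := fun h => h (FP d) (fshift d)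
  tfae_have 3 → 4 := by
    intro h μ _
    exact ⟨Set.univ, MeasurableSet.univ, fun _ _ _ => trivial, by simp, solOn_univ L h⟩
  tfae_have 4 → 5 := bern_of_meas L
  tfae_have 5 → 1 := by
    rintro ⟨C, hC, hCi, hC0, hs⟩
    obtain ⟨q, E, hE, hEl, hEi, hEs⟩ := mainZ hd L π hL (ae (bern d))
      (good_bern 2 0 d Nat.prime_two).inv
      (fun F hF a b hab ha hb => count_bern F hF a b hab ha hb) C hC hCi (mem_ae_iff.2 hC0) hs
    refine ⟨q, hfib' q (Or.inl ⟨C ∩ Subtype.val ⁻¹' E, hC.inter (measurable_subtype_coe hE), hEi,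
      ?_, hEs⟩)⟩
    have h1 : Subtype.val '' C ∩ E ∈ ae (bern d) := Filter.inter_mem (mem_ae_iff.2 hC0) hEl
    have h2 : (Subtype.val '' (C ∩ Subtype.val ⁻¹' E) : Set (Om d)) ∈ ae (bern d) := by
      refine Filter.mem_of_superset h1 ?_
      rintro _ ⟨⟨y, hy, rfl⟩, hyE⟩
      exact ⟨y, ⟨hy, hyE⟩, rfl⟩
    exact mem_ae_iff.1 h2
  tfae_have 3 → 6 := by
    intro h
    exact ⟨Set.univ, MeasurableSet.univ, fun _ _ _ => trivial, Filter.univ_mem, solOn_univ L h⟩
  tfae_have 6 → 1 := by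
    rintro ⟨C, hC, hCi, hC0, hs⟩
    obtain ⟨q, E, hE, hEl, hEi, hEs⟩ := mainZ hd L π hL (residual (Om d))
      (good_resid 2 0 d Nat.prime_two).inv
      (fun F hF a b hab ha hb => count_resid F hF a b hab ha hb) C hC hCi (resid_sub d C hC0) hs
    exact ⟨q, hfib' q (Or.inr ⟨C ∩ Subtype.val ⁻¹' E, hC.inter (measurable_subtype_coe hE), hEi,
      Filter.inter_mem hC0 (resid_pull d E hEl), hEs⟩)⟩
  tfae_finish

end ZE
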