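import Mathlib

/-!
# ZE: Hamming balls
-/

set_option autoImplicit false

namespace ZE

theorem hamming {ι S : Type} [Fintype ι] [DecidableEq ι] [Fintype S] [DecidableEq S] (w : ι → S)
    (t : ℕ) (θ : ℝ) (h0 : 0 < θ) (h1 : θ ≤ 1) :
    ((Finset.univ.filter fun u : ι → S =>
      (Finset.univ.filter fun v => u v ≠ w v).card ≤ t).card : ℝ) * θ ^ t ≤
      (1 + Fintype.card S * θ) ^ Fintype.card ι := by
  have h2 : ∀ u : ι → S, θ ^ (Finset.univ.filter fun v => u v ≠ w v).card =
      ∏ v, if u v ≠ w v then θ else 1 := by
    intro u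
    rw [Finset.prod_ite, Finset.prod_const, Finset.prod_const_one, mul_one]
  calc ((Finset.univ.filter fun u : ι → S =>
        (Finset.univ.filter fun v => u v ≠ w v).card ≤ t).card : ℝ) * θ ^ t
      = ∑ _u ∈ Finset.univ.filter fun u : ι → S =>
        (Finset.univ.filter fun v => u v ≠ w v).card ≤ t, θ ^ t := by
        rw [Finset.sum_const, nsmul_eq_mul]
    _ ≤ ∑ u ∈ Finset.univ.filter fun u : ι → S =>
        (Finset.univ.filter fun v => u v ≠ w v).card ≤ t,
        θ ^ (Finset.univ.filter fun v => u v ≠ w v).card := by
        refine Finset.sum_le_sum fun u hu => ?_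
        exact pow_le_pow_of_le_one h0.le h1 (Finset.mem_filter.1 hu).2
    _ ≤ ∑ u : ι → S, θ ^ (Finset.univ.filter fun v => u v ≠ w v).card :=
        Finset.sum_le_sum_of_subset_of_nonneg (Finset.filter_subset _ _)
          fun u _ _ => pow_nonneg h0.le _
    _ = ∑ u : ι → S, ∏ v, if u v ≠ w v then θ else 1 :=
        Finset.sum_congr rfl fun u _ => h2 u
    _ = ∏ v : ι, ∑ s : S, if s ≠ w v then θ else 1 := by
        rw [Finset.prod_univ_sum, Fintype.piFinset_univ]
    _ ≤ ∏ _v : ι, (1 + Fintype.card S * θ) := by
        refine Finset.prod_le_prod (fun v _ => Finset.sum_nonneg fun s _ => ?_) fun v _ => ?_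
        · split_ifs
          · exact h0.le
          · exact zero_le_one
        · rw [Finset.sum_ite, Finset.sum_const, Finset.sum_const, nsmul_eq_mul, nsmul_eq_mul,
            mul_one]
          have e1 : (Finset.univ.filter fun s : S => ¬ s ≠ w v) = {w v} := by
            ext s
            simp
          rw [e1, Finset.card_singleton]
          have e2 : ((Finset.univ.filter fun s : S => s ≠ w v).card : ℝ) ≤ Fintype.card S := by
            exact_mod_cast Finset.card_le_univ _
          have e3 := mul_le_mul_of_nonneg_right e2 h0.le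
          push_cast
          linarith
    _ = (1 + Fintype.card S * θ) ^ Fintype.card ι := by
        rw [Finset.prod_const, Finset.card_univ]

end ZE
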